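import Pool.Agent.L0h45.AV.Stm

/-!
# Module JAC: the Jacobian of the parametrisation
-/

set_option autoImplicit false
set_option linter.all false

open ContinuousLinearMap

namespace Pool.Agent.L0h20.AV

open Pool.Agent.L0h45.AV

/-- the Jacobian matrix; `c = k cos φ`, `s = k sin φ` -/
noncomputable def jm (p v t c s : ℝ) : Matrix (Fin 4) (Fin 4) ℝ :=
  !![0, -2 / v, -s / (3 + c), 1 / t;
     t * (3 + c) / (2 * v ^ 2), t * (-4 * p * (3 + c) / (4 * v ^ 3) + s / (4 * v ^ 2)),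
       t * (-2 * p * s - c * v) / (4 * v ^ 2), (2 * p * (3 + c) - s * v) / (4 * v ^ 2);
     -t * (2 * p * (3 + c) - s * v) / (2 * v ^ 2), -t * (-2 * p ^ 2 * (3 + c) / (2 * v ^ 3) + p * s / (2 * v ^ 2)),
       t * (p ^ 2 * s + p * c * v) / (2 * v ^ 2), -(p ^ 2 * (3 + c) - p * s * v + v ^ 2) / (2 * v ^ 2);
     t * (-6 * p ^ 2 * (3 + c) + 6 * p * s * v - 6 * v ^ 2) / (2 * v ^ 2),
       t * (4 * p ^ 3 * (3 + c) / (2 * v ^ 3) - 3 * p ^ 2 * s / (2 * v ^ 2) + s / 2),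
       t * (2 * p ^ 3 * s + 3 * p ^ 2 * c * v + c * v ^ 3) / (2 * v ^ 2),
       (-2 * p ^ 3 * (3 + c) + 3 * p ^ 2 * s * v - 6 * p * v ^ 2 + s * v ^ 3) / (2 * v ^ 2)]

theorem jm_det0 (p v t c s : ℝ) (hv : v ≠ 0) (ht : t ≠ 0) (hc : 3 + c ≠ 0) :
    (jm p v t c s).det = t ^ 2 / (8 * v ^ 2) * (-s ^ 2 * (6 + c - s ^ 2) / (3 + c) + c * (2 * c + s ^ 2)) := by
  unfold jm
  rw [Matrix.det_succ_row_zero]
  simp [Fin.sum_univ_succ, Matrix.det_fin_three, Matrix.submatrix, Fin.succAbove]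
  field_simp
  ring

theorem jm_det (p v t c s : ℝ) (hv : v ≠ 0) (ht : t ≠ 0) (hc : 3 + c ≠ 0) (h : s ^ 2 = 12 - c ^ 2) :
    |(jm p v t c s).det| = 3 * t ^ 2 / v ^ 2 := by
  have hnn : 0 ≤ 3 * t ^ 2 / v ^ 2 := by positivity
  rw [jm_det0 p v t c s hv ht hc, h]
  rw [show t ^ 2 / (8 * v ^ 2) * (-(12 - c ^ 2) * (6 + c - (12 - c ^ 2)) / (3 + c) + c * (2 * c + (12 - c ^ 2))) =
    3 * t ^ 2 / v ^ 2 from ?_, abs_of_nonneg hnn]
  field_simp
  ring

theorem t_JAC : S_JAC := by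
  intro q hv hx
  have hv' : q 1 ≠ 0 := hv.ne'
  obtain ⟨k, hk⟩ : ∃ k : ℝ, k = 2 * √3 := ⟨_, rfl⟩
  have hk2 : k ^ 2 = 12 := by
    rw [hk, mul_pow, Real.sq_sqrt (by norm_num)]; norm_num
  obtain ⟨c, hc⟩ : ∃ c : ℝ, c = k * Real.cos (q 2) := ⟨_, rfl⟩
  obtain ⟨s, hs⟩ : ∃ s : ℝ, s = k * Real.sin (q 2) := ⟨_, rfl⟩
  have hcs : s ^ 2 = 12 - c ^ 2 := by
    rw [hs, hc, mul_pow, mul_pow, hk2, Real.sin_sq]; ring
  have hxe : (Bq q).x = q 3 * (3 + c) / (4 * (q 1) ^ 2) := by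
    simp only [Bq, Bp, hc, hk]; ring
  have hA : q 3 * (3 + c) ≠ 0 := by
    intro h0
    rw [hxe, h0, zero_div] at hx
    exact lt_irrefl _ hx
  have ht : q 3 ≠ 0 := left_ne_zero_of_mul hA
  have ha : 3 + c ≠ 0 := right_ne_zero_of_mul hA
  refine ⟨LinearMap.toContinuousLinearMap (Matrix.toLin' (jm (q 0) (q 1) (q 3) c s)), ?_, ?_⟩
  · have h0 : HasFDerivAt (fun q : Fin 4 → ℝ => q 0) (ContinuousLinearMap.proj (R := ℝ) 0) q := hasFDerivAt_apply 0 q
    have h1 : HasFDerivAt (fun q : Fin 4 → ℝ => q 1) (ContinuousLinearMap.proj (R := ℝ) 1) q := hasFDerivAt_apply 1 q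
    have h2 : HasFDerivAt (fun q : Fin 4 → ℝ => q 2) (ContinuousLinearMap.proj (R := ℝ) 2) q := hasFDerivAt_apply 2 q
    have h3 : HasFDerivAt (fun q : Fin 4 → ℝ => q 3) (ContinuousLinearMap.proj (R := ℝ) 3) q := hasFDerivAt_apply 3 q
    have hC := (h3.mul h2.cos).const_mul k
    have hS := (h3.mul h2.sin).const_mul k
    have hAA := (h3.const_mul 3).add hC
    have hw := (hasDerivAt_inv (pow_ne_zero 2 hv')).comp_hasFDerivAt q (h1.pow 2)
    have hX := (hAA.mul hw).const_mul (1 / 4)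
    have hY := ((((h0.mul hAA).const_mul 2).sub (hS.mul h1)).mul hw).const_mul (1 / 4)
    have hc' := (((((h0.pow 2).mul hAA).sub ((h0.mul hS).mul h1)).add (h3.mul (h1.pow 2))).mul hw).const_mul (-(1 / 2))
    have hZ := (((((((h0.pow 3).mul hAA).const_mul (-2)).add ((((h0.pow 2).mul hS).mul h1).const_mul 3)).sub
      (((h0.mul h3).mul (h1.pow 2)).const_mul 6)).add (hS.mul (h1.pow 3))).mul hw).const_mul (1 / 2)
    have hXq : (1 / 4 : ℝ) * ((3 * q 3 + k * (q 3 * Real.cos (q 2))) * ((q 1) ^ 2)⁻¹) = q 3 * (3 + c) / (4 * (q 1) ^ 2) := by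
      rw [hc]; field_simp
    have hAq : 3 * q 3 + k * (q 3 * Real.cos (q 2)) = q 3 * (3 + c) := by rw [hc]; ring
    have hL := hX.log (by
      show (1 / 4 : ℝ) * ((3 * q 3 + k * (q 3 * Real.cos (q 2))) * ((q 1) ^ 2)⁻¹) ≠ 0
      rw [hXq, ← hxe]
      exact hx.ne')
    rw [hasFDerivAt_pi']
    intro i
    fin_cases i
    · refine (hL.congr_of_eventuallyEq (Filter.Eventually.of_forall fun q => ?_)).congr_fderiv ?_
      · show Real.log _ = Real.log _
        congr 1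
        simp [Bq, Bp, ← hk]
        ring
      · refine ContinuousLinearMap.ext fun w => ?_
        simp [Matrix.mulVec, dotProduct, Fin.sum_univ_succ, jm]
        rw [hAq]
        field_simp
        rw [hc, hs]
        ring
    · refine (hY.congr_of_eventuallyEq (Filter.Eventually.of_forall fun q => ?_)).congr_fderiv ?_
      · simp [cd, Bq, Bp, ← hk]
        ring
      · refine ContinuousLinearMap.ext fun w => ?_
        simp [Matrix.mulVec, dotProduct, Fin.sum_univ_succ, jm]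
        rw [hc, hs]
        field_simp
        ring
    · refine (hc'.congr_of_eventuallyEq (Filter.Eventually.of_forall fun q => ?_)).congr_fderiv ?_
      · simp [cd, Bq, Bp, ← hk]
        ring
      · refine ContinuousLinearMap.ext fun w => ?_
        simp [Matrix.mulVec, dotProduct, Fin.sum_univ_succ, jm]
        rw [hc, hs]
        field_simp
        ring
    · refine (hZ.congr_of_eventuallyEq (Filter.Eventually.of_forall fun q => ?_)).congr_fderiv ?_
      · simp [cd, Bq, Bp, ← hk]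
        ring
      · refine ContinuousLinearMap.ext fun w => ?_
        simp [Matrix.mulVec, dotProduct, Fin.sum_univ_succ, jm]
        rw [hc, hs]
        field_simp
        ring
  · have : (LinearMap.toContinuousLinearMap (Matrix.toLin' (jm (q 0) (q 1) (q 3) c s))).det =
        (jm (q 0) (q 1) (q 3) c s).det := by
      rw [ContinuousLinearMap.det, LinearMap.coe_toContinuousLinearMap, LinearMap.det_toLin']
    rw [this]
    exact jm_det _ _ _ _ _ hv' ht ha hcs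

end Pool.Agent.L0h20.AV
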